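import Mathlib
import Pool.Agent.TH876.KR.Fin
import Pool.Agent.TH876.GR.Def

set_option autoImplicit false

/-!
# Elements of a number field one of whose three conductors is small: definitions
-/

namespace Pool.Agent.TH876.SK

open NumberField IsDedekindDomain Finset Pool.Agent.H691R3 Pool.Agent.TH876.Loc
open Pool.Agent.TH876.KR (side rr aw Sc Light InP)
open Pool.Agent.TH876.GR (Adm MainBound)

variable {K : Type} [Field K] [NumberField K]

/-- the conductor of `x` outside `S`: the sum of `log N(v)` over the primes `v` outside `S` with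
`|x|_v < 1` -/
noncomputable def cond (S : Set (HeightOneSpectrum (𝓞 K))) (x : K) : ℝ :=
  ∑ᶠ v ∈ {v : HeightOneSpectrum (𝓞 K) | v ∉ S ∧ v.valuation K x < 1},
    Real.log (Ideal.absNorm v.asIdeal : ℝ)

/-- the `x ∈ K`, `x ≠ 0, 1`, of height at most `H` for which the sum of the conductors of `x`,
`1 / x` and `x - 1` is at most `log X` and the smallest of the three is at most `log A` -/
def Points (S : Set (HeightOneSpectrum (𝓞 K))) (X A H : ℝ) : Set K :=
  {x | x ≠ 0 ∧ x ≠ 1 ∧ Real.exp (cond S x + cond S x⁻¹ + cond S (x - 1)) ≤ X ∧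
    Real.exp (min (cond S x) (min (cond S x⁻¹) (cond S (x - 1)))) ≤ A ∧
    Height.logHeight₁ x ≤ H}

variable (K) in
/-- points with a side of small radical outside `S0` -/
def AdmSmall : Prop := ∀ S0 : Finset (Pr K), ∃ c : ℝ, 0 ≤ c ∧ ∀ (x : K) (C : Fin 3) (X α : ℝ),
  Pt x → 1 ≤ X → 0 ≤ α → rr C x ≤ α * Real.log X + Real.log (nn S0) →
  (∀ T : Finset (Pr K), (∀ v ∈ T, v ∈ sp x ∧ v ∉ S0) → nn T ≤ X) → Adm ((1 + α) / 2) c X x

end Pool.Agent.TH876.SK
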