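import Mathlib
import Pool.Agent.TH876.KR.Cho
import Pool.Agent.TH876.SK.Def

set_option autoImplicit false

/-!
# Points one side of which has a small radical
-/

namespace Pool.Agent.TH876.SK

open NumberField IsDedekindDomain Finset Pool.Agent.H691R3 Pool.Agent.TH876.Loc
open Pool.Agent.TH876.KR (side rr aw Sc Light InP)
open Pool.Agent.TH876.GR (Adm MainBound)

section
variable {K : Type} [Field K] [NumberField K]

private theorem adm_log_le {S T : Finset (Pr K)} (h : S ⊆ T) :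
    ∑ v ∈ S, Real.log (Nv v) ≤ ∑ v ∈ T, Real.log (Nv v) :=
  Finset.sum_le_sum_of_subset_of_nonneg h fun v _ _ => (KR.log_Nv_pos' v).le

private theorem adm_perm {A B C : Fin 3} (hAB : A ≠ B) (hBC : B ≠ C) (hAC : A ≠ C)
    (f : Fin 3 → ℝ) : f 0 + f 1 + f 2 = f A + f B + f C := by
  fin_cases A <;> fin_cases B <;> fin_cases C <;> simp at hAB hBC hAC ⊢ <;> ring

private theorem adm_other (C : Fin 3) : ∃ A B : Fin 3, A ≠ B ∧ B ≠ C ∧ A ≠ C := by
  fin_cases C
  · exact ⟨1, 2, by decide, by decide, by decide⟩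
  · exact ⟨0, 2, by decide, by decide, by decide⟩
  · exact ⟨0, 1, by decide, by decide, by decide⟩

/-- the radical outside a finite set -/
private theorem adm_rad (S0 : Finset (Pr K)) {x : K} {X : ℝ}
    (hT : ∀ T : Finset (Pr K), (∀ v ∈ T, v ∈ sp x ∧ v ∉ S0) → nn T ≤ X) :
    Real.log (nn (sp x)) ≤ Real.log X + Real.log (nn S0) := by
  classical
  have h1 : nn (sp x \ S0) ≤ X := hT _ fun v hv => Finset.mem_sdiff.1 hv
  have h2 : Real.log (nn (sp x \ S0)) ≤ Real.log X := Real.log_le_log (nn_pos _) h1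
  rw [KR.log_nn] at h2
  rw [KR.log_nn, KR.log_nn]
  have h3 := Finset.sum_sdiff_eq_sub (s₁ := sp x \ S0) (s₂ := sp x)
    (f := fun v : Pr K => Real.log (Nv v)) Finset.sdiff_subset
  have h4 : sp x \ (sp x \ S0) ⊆ S0 := by
    intro v hv
    rw [Finset.mem_sdiff, Finset.mem_sdiff] at hv
    by_contra h
    exact hv.2 ⟨hv.1, h⟩
  have h5 := adm_log_le h4
  linarith

end

variable (K : Type) [Field K] [NumberField K]

theorem admSmall : AdmSmall K := by
  classical
  intro S0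
  have hc0 : 0 ≤ Real.log (nn S0) := Real.log_nonneg (one_le_nn S0)
  refine ⟨Real.log (nn S0), hc0, ?_⟩
  intro x C X α hx hX hα hrC hT
  obtain ⟨A, B, hAB, hBC, hAC⟩ := adm_other C
  have hrad := adm_rad S0 hT
  have hL : 0 ≤ Real.log X := Real.log_nonneg hX
  have rA := KR.rr_nonneg A x
  have rB := KR.rr_nonneg B x
  have rC := KR.rr_nonneg C x
  have hsum : rr A x + rr B x + rr C x ≤ Real.log X + Real.log (nn S0) := by
    rw [← adm_perm hAB hBC hAC (fun i => rr i x), KR.rr_sum' hx]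
    exact hrad
  have hαL : 0 ≤ α * Real.log X := mul_nonneg hα hL
  refine { pt := hx, rad := hrad, two := ?_, good := ?_ }
  · rcases le_total (rr A x) (rr B x) with h | h
    · refine ⟨A, C, hAC, ?_⟩
      nlinarith
    · refine ⟨B, C, hBC, ?_⟩
      nlinarith
  · intro k hk h0
    have hk2 : 2 ≤ k := by omega
    have hk3 : (3 : ℝ) ≤ k := by exact_mod_cast hk
    obtain ⟨PA, hPA, mA, eA, nA⟩ := KR.cho_max A x
    obtain ⟨PB, hPB, mB, eB, nB⟩ := KR.cho_max B x
    obtain ⟨QA, hQA, wA, cA⟩ := KR.cho_part hk2 hx h0 A hPA mA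
    obtain ⟨QB, hQB, wB, cB⟩ := KR.cho_part hk2 hx h0 B hPB mB
    obtain ⟨S1, g1, f1⟩ := KR.cho_one hk2 hx h0 hAB hBC hAC eB nB hQA wA cA
    obtain ⟨S2, g2, f2⟩ := KR.cho_one hk2 hx h0 hAB.symm hAC hBC eA nA hQB wB cB
    obtain ⟨κ, hκ⟩ : ∃ κ : ℝ, κ = 1 / (k : ℝ) := ⟨_, rfl⟩
    have hκ0 : 0 < κ := by rw [hκ]; positivity
    have hκ1 : κ ≤ 1 / 3 := by
      rw [hκ]
      exact one_div_le_one_div_of_le (by norm_num) hk3
    have k2 : (2 : ℝ) / k = 2 * κ := by rw [hκ]; ring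
    rw [k2] at f1 f2
    rw [← hκ]
    have key : (1 / 2 + κ) * (rr A x + rr B x) + rr C x ≤
        ((1 + α) / 2 + κ) * Real.log X + Real.log (nn S0) := by
      have h1 : (1 / 2 + κ) * (rr A x + rr B x) ≤
          (1 / 2 + κ) * (Real.log X + Real.log (nn S0) - rr C x) :=
        mul_le_mul_of_nonneg_left (by linarith) (by linarith)
      have h2 : (1 / 2 - κ) * rr C x ≤ (1 / 2 - κ) * (α * Real.log X + Real.log (nn S0)) :=
        mul_le_mul_of_nonneg_left hrC (by linarith)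
      have h3 : 0 ≤ κ * (α * Real.log X) := mul_nonneg hκ0.le hαL
      nlinarith
    by_contra hcon
    push Not at hcon
    have a1 := hcon S1 g1
    have a2 := hcon S2 g2
    nlinarith

end Pool.Agent.TH876.SK
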