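import Mathlib
import Pool.Agent.TH876.SK.Def

set_option autoImplicit false

/-!
# Elements of a number field one of whose three conductors is small: the final statement
-/

namespace Pool.Agent.TH876.SK

open NumberField IsDedekindDomain Finset Pool.Agent.H691R3 Pool.Agent.TH876.Loc
open Pool.Agent.TH876.KR (side rr aw Sc Light InP)
open Pool.Agent.TH876.GR (Adm MainBound)

section
variable {K : Type} [Field K] [NumberField K]

private theorem fin_val_eq (v : Pr K) (x : K) :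
    fv v x = ((WithZeroMulInt.toNNReal (NumberField.HeightOneSpectrum.absNorm_ne_zero v)
      (v.valuation K x) : NNReal) : ℝ) :=
  NumberField.FinitePlace.norm_embedding' (v := v) (x := x)

private theorem fin_lt_one (v : Pr K) (x : K) : v.valuation K x < 1 ↔ fv v x < 1 := by
  rw [fin_val_eq, NNReal.coe_lt_one]
  exact (WithZeroMulInt.toNNReal_lt_one_iff
    (NumberField.HeightOneSpectrum.one_lt_absNorm_nnreal v)).symm

private theorem fin_Pt {x : K} (h0 : x ≠ 0) (h1 : x ≠ 1) : Pt (-x) := by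
  refine ⟨neg_ne_zero.2 h0, fun h => h1 ?_⟩
  linear_combination -h

/-- the three numbers -/
private def fin_cf (i : Fin 3) (x : K) : K := ![x, x⁻¹, x - 1] i

private theorem fin_cf_ne {x : K} (h0 : x ≠ 0) (h1 : x ≠ 1) (i : Fin 3) : fin_cf i x ≠ 0 := by
  fin_cases i
  · exact h0
  · exact inv_ne_zero h0
  · exact sub_ne_zero.2 h1

private theorem fin_side {x : K} (h0 : x ≠ 0) (h1 : x ≠ 1) {v : Pr K} {i : Fin 3}
    (h : v ∈ side i (-x)) : fv v (fin_cf i x) < 1 := by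
  have hPt := fin_Pt h0 h1
  have h2 := (KR.mem_side hPt).1 h
  rw [KR.df_inr] at h2
  have hM : 0 < M (Sum.inr v : Pl K) (-x) := lt_of_lt_of_le one_pos (one_le_M _ _)
  have h3 : fv v (L i (-x)) < M (Sum.inr v : Pl K) (-x) := by
    rw [← Real.log_lt_log_iff (KR.fv_pos v (L_ne hPt i)) hM]
    linarith
  have hL1 : fv v (L 1 (-x)) = 1 := map_one _
  have hL0 : fv v (L 0 (-x)) = fv v x := (fv v).map_neg x
  have hL2 : fv v (L 2 (-x)) = fv v (x - 1) := by
    show fv v (- -x - 1) = _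
    rw [neg_neg]
  fin_cases i
  · have h4 := KR.two_max v (-x) (i := 0) (j := 1) (by decide) h3
    rw [← h4, hL1] at h3
    show fv v x < 1
    rw [← hL0]
    exact h3
  · have h4 := KR.two_max v (-x) (i := 1) (j := 0) (by decide) h3
    rw [← h4, hL0] at h3
    have h5 : (1 : ℝ) < fv v x := by
      rw [← hL1]
      exact h3
    show fv v x⁻¹ < 1
    rw [map_inv₀]
    exact inv_lt_one_of_one_lt₀ h5
  · have h4 := KR.two_max v (-x) (i := 2) (j := 1) (by decide) h3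
    rw [← h4, hL1] at h3
    show fv v (x - 1) < 1
    rw [← hL2]
    exact h3

/-- the conductor is a finite sum -/
private theorem fin_cond (S : Set (Pr K)) {y : K} (hy : y ≠ 0) :
    ∃ J : Finset (Pr K), (∀ v, v ∈ J ↔ v ∉ S ∧ fv v y < 1) ∧
      cond S y = ∑ v ∈ J, Real.log (Nv v) := by
  classical
  have hI : {v : Pr K | v ∉ S ∧ v.valuation K y < 1}.Finite := by
    refine (fv_support_finite hy).subset ?_
    rintro v ⟨_, hv⟩
    exact ((fin_lt_one v y).1 hv).ne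
  refine ⟨hI.toFinset, ?_, ?_⟩
  · intro v
    rw [Set.Finite.mem_toFinset, Set.mem_ofPred_eq, fin_lt_one]
  · unfold cond
    rw [← finsum_mem_coe_finset, Set.Finite.coe_toFinset]
    rfl

private theorem fin_cond_nonneg (S : Set (Pr K)) {y : K} (hy : y ≠ 0) : 0 ≤ cond S y := by
  obtain ⟨J, _, h⟩ := fin_cond S hy
  rw [h]
  exact Finset.sum_nonneg fun v _ => (KR.log_Nv_pos' v).le

/-- the radical of a side -/
private theorem fin_rr (S : Set (Pr K)) (hS : S.Finite) {x : K} (h0 : x ≠ 0) (h1 : x ≠ 1)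
    (i : Fin 3) : rr i (-x) ≤ cond S (fin_cf i x) + Real.log (nn hS.toFinset) := by
  classical
  obtain ⟨J, hJ, h⟩ := fin_cond S (fin_cf_ne h0 h1 i)
  have hsub : side i (-x) ⊆ J ∪ hS.toFinset := by
    intro v hv
    rw [Finset.mem_union]
    by_cases hvS : v ∈ S
    · exact Or.inr ((Set.Finite.mem_toFinset hS).2 hvS)
    · exact Or.inl ((hJ v).2 ⟨hvS, fin_side h0 h1 hv⟩)
  unfold rr
  rw [h, KR.log_nn]
  calc ∑ v ∈ side i (-x), Real.log (Nv v) ≤ ∑ v ∈ J ∪ hS.toFinset, Real.log (Nv v) :=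
        Finset.sum_le_sum_of_subset_of_nonneg hsub fun v _ _ => (KR.log_Nv_pos' v).le
    _ ≤ ∑ v ∈ J ∪ hS.toFinset, Real.log (Nv v) + ∑ v ∈ J ∩ hS.toFinset, Real.log (Nv v) :=
        le_add_of_nonneg_right (Finset.sum_nonneg fun v _ => (KR.log_Nv_pos' v).le)
    _ = _ := Finset.sum_union_inter

/-- the radical outside `S` -/
private theorem fin_rad (S : Set (Pr K)) (hS : S.Finite) {x : K} (h0 : x ≠ 0) (h1 : x ≠ 1)
    {X : ℝ} (hX : 0 < X)
    (h : cond S x + cond S x⁻¹ + cond S (x - 1) ≤ Real.log X) (T : Finset (Pr K))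
    (hT : ∀ v ∈ T, v ∈ sp (-x) ∧ v ∉ hS.toFinset) : nn T ≤ X := by
  classical
  obtain ⟨J0, hJ0, e0⟩ := fin_cond S (fin_cf_ne h0 h1 0)
  obtain ⟨J1, hJ1, e1⟩ := fin_cond S (fin_cf_ne h0 h1 1)
  obtain ⟨J2, hJ2, e2⟩ := fin_cond S (fin_cf_ne h0 h1 2)
  have e0' : cond S x = ∑ v ∈ J0, Real.log (Nv v) := e0
  have e1' : cond S x⁻¹ = ∑ v ∈ J1, Real.log (Nv v) := e1
  have e2' : cond S (x - 1) = ∑ v ∈ J2, Real.log (Nv v) := e2
  have hsub : T ⊆ (J0 ∪ J1) ∪ J2 := by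
    intro v hv
    obtain ⟨hv1, hv2⟩ := hT v hv
    have hvS : v ∉ S := fun h => hv2 ((Set.Finite.mem_toFinset hS).2 h)
    obtain ⟨i, hi⟩ := (KR.mem_sp_iff (fin_Pt h0 h1) v).1 hv1
    have h2 := fin_side h0 h1 hi
    rw [Finset.mem_union, Finset.mem_union]
    fin_cases i
    · exact Or.inl (Or.inl ((hJ0 v).2 ⟨hvS, h2⟩))
    · exact Or.inl (Or.inr ((hJ1 v).2 ⟨hvS, h2⟩))
    · exact Or.inr ((hJ2 v).2 ⟨hvS, h2⟩)
  have hn : ∀ s : Finset (Pr K), 0 ≤ ∑ v ∈ s, Real.log (Nv v) := fun s =>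
    Finset.sum_nonneg fun v _ => (KR.log_Nv_pos' v).le
  have hu : ∀ s t : Finset (Pr K), ∑ v ∈ s ∪ t, Real.log (Nv v) ≤
      ∑ v ∈ s, Real.log (Nv v) + ∑ v ∈ t, Real.log (Nv v) := by
    intro s t
    have h3 : ∑ v ∈ s ∪ t, Real.log (Nv v) + ∑ v ∈ s ∩ t, Real.log (Nv v) =
      ∑ v ∈ s, Real.log (Nv v) + ∑ v ∈ t, Real.log (Nv v) := Finset.sum_union_inter
    have h4 := hn (s ∩ t)
    linarith
  have h3 : Real.log (nn T) ≤ Real.log X := by
    have h4 : ∑ v ∈ T, Real.log (Nv v) ≤ ∑ v ∈ (J0 ∪ J1) ∪ J2, Real.log (Nv v) :=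
      Finset.sum_le_sum_of_subset_of_nonneg hsub fun v _ _ => (KR.log_Nv_pos' v).le
    have h5 := hu (J0 ∪ J1) J2
    have h6 := hu J0 J1
    rw [KR.log_nn]
    rw [e0', e1', e2'] at h
    linarith
  exact (Real.log_le_log_iff (nn_pos _) hX).1 h3

/-- the matrix of the three forms -/
private def fin_mat : Fin 3 × Fin 2 → K :=
  fun p => ![![-1, 0], ![0, 1], ![1, -1]] p.1 p.2

private theorem fin_hgt {x : K} (h0 : x ≠ 0) (h1 : x ≠ 1) :
    hgt (-x) ≤ (Height.totalWeight K * Real.log 2 + Height.logHeight (fin_mat : Fin 3 × Fin 2 → K)) +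
      Height.logHeight₁ x := by
  refine (KR.hgt_le_logHeight (fin_Pt h0 h1)).trans ?_
  have h2 : (fun i : Fin 3 => L i (-x)) =
      (fun i : Fin 3 => ∑ j, fin_mat (i, j) * ![x, 1] j) := by
    funext i
    rw [Fin.sum_univ_two]
    unfold fin_mat L
    fin_cases i
    · simp
    · simp
    · simp
      ring
  rw [h2, Height.logHeight₁_eq_logHeight]
  refine (Height.logHeight_linearMap_apply_le (fin_mat : Fin 3 × Fin 2 → K) ![x, 1]).trans ?_
  rw [Nat.card_eq_fintype_card, Fintype.card_fin]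
  push_cast
  exact le_rfl

/-- the choice of the exponent -/
private theorem fin_exp {m : ℕ} (hm : 1 ≤ m) {ε : ℝ} (hmε : 1 / (3 * (m : ℝ)) ≤ ε) {X A : ℝ}
    (hX : 1 ≤ X) (hA : 1 ≤ A) :
    ∃ j ∈ Finset.range (m + 1), min (Real.log A) (Real.log X / 3) ≤ (j / (3 * m) : ℝ) * Real.log X ∧
      X ^ ((1 + (j / (3 * m) : ℝ)) / 2 + ε / 2) ≤ X ^ ε * (A * X) ^ ((1 : ℝ) / 2) := by
  have hX0 : 0 < X := by linarith
  have hA0 : 0 < A := by linarith
  have hm0 : (0 : ℝ) < m := by exact_mod_cast hm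
  have hlX : 0 ≤ Real.log X := Real.log_nonneg hX
  have hlA : 0 ≤ Real.log A := Real.log_nonneg hA
  have key : ∀ α : ℝ, α * Real.log X ≤ ε * Real.log X + Real.log A →
      X ^ ((1 + α) / 2 + ε / 2) ≤ X ^ ε * (A * X) ^ ((1 : ℝ) / 2) := by
    intro α h
    have hpos : 0 < X ^ ε * (A * X) ^ ((1 : ℝ) / 2) := by positivity
    rw [← Real.log_le_log_iff (by positivity) hpos, Real.log_rpow hX0,
      Real.log_mul (by positivity) (by positivity), Real.log_rpow hX0,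
      Real.log_rpow (by positivity), Real.log_mul (by positivity) (by positivity)]
    nlinarith
  by_cases hL : Real.log X = 0
  · refine ⟨0, Finset.mem_range.2 (by omega), ?_, key _ ?_⟩
    · rw [hL]
      simp
    · rw [hL]
      simp
      exact hlA
  · have hLp : 0 < Real.log X := lt_of_le_of_ne hlX (Ne.symm hL)
    set a0 : ℝ := min (Real.log A / Real.log X) (1 / 3) with ha0
    have ha00 : 0 ≤ a0 := le_min (by positivity) (by norm_num)
    have ha1 : a0 ≤ 1 / 3 := min_le_right _ _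
    have ha2 : a0 * Real.log X ≤ Real.log A := by
      have h1 : a0 ≤ Real.log A / Real.log X := min_le_left _ _
      rwa [le_div_iff₀ hLp] at h1
    have ha3 : min (Real.log A) (Real.log X / 3) = a0 * Real.log X := by
      rw [ha0, min_mul_of_nonneg _ _ hlX, div_mul_cancel₀ _ hL]
      congr 1
      ring
    have hc1 : 3 * m * a0 ≤ ⌈3 * m * a0⌉₊ := Nat.le_ceil _
    have hc2 : (⌈3 * m * a0⌉₊ : ℝ) < 3 * m * a0 + 1 := Nat.ceil_lt_add_one (by positivity)
    have hc3 : ⌈3 * m * a0⌉₊ ≤ m := by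
      rw [Nat.ceil_le]
      nlinarith
    refine ⟨⌈3 * m * a0⌉₊, Finset.mem_range.2 (by omega), ?_, key _ ?_⟩
    · rw [ha3]
      refine mul_le_mul_of_nonneg_right ?_ hlX
      rw [le_div_iff₀ (by positivity)]
      linarith
    · have h1 : (⌈3 * m * a0⌉₊ : ℝ) / (3 * m) ≤ a0 + 1 / (3 * m) := by
        rw [div_le_iff₀ (by positivity)]
        have h2 : (a0 + 1 / (3 * m)) * (3 * m) = 3 * m * a0 + 1 := by
          field_simp
        rw [h2]
        exact hc2.le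
      have h2 := mul_le_mul_of_nonneg_right h1 hlX
      have h3 := mul_le_mul_of_nonneg_right hmε hlX
      nlinarith

/-- one of the three sides has a small radical -/
private theorem fin_min (S : Set (Pr K)) {x : K} (h0 : x ≠ 0) (h1 : x ≠ 1)
    {X A : ℝ} (hX : 0 < X) (hA : 0 < A)
    (h : Real.exp (cond S x + cond S x⁻¹ + cond S (x - 1)) ≤ X)
    (h' : Real.exp (min (cond S x) (min (cond S x⁻¹) (cond S (x - 1)))) ≤ A) :
    ∃ i : Fin 3, cond S (fin_cf i x) ≤ min (Real.log A) (Real.log X / 3) := by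
  rw [← Real.le_log_iff_exp_le hX] at h
  rw [← Real.le_log_iff_exp_le hA] at h'
  have hmin : ∃ i : Fin 3, cond S (fin_cf i x) =
      min (cond S x) (min (cond S x⁻¹) (cond S (x - 1))) := by
    rcases min_choice (cond S x) (min (cond S x⁻¹) (cond S (x - 1))) with h2 | h2
    · exact ⟨0, h2.symm⟩
    · rcases min_choice (cond S x⁻¹) (cond S (x - 1)) with h3 | h3
      · exact ⟨1, (h2.trans h3).symm⟩
      · exact ⟨2, (h2.trans h3).symm⟩
  obtain ⟨i, hi⟩ := hmin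
  refine ⟨i, ?_⟩
  rw [hi]
  refine le_min h' ?_
  have h2 : min (cond S x) (min (cond S x⁻¹) (cond S (x - 1))) ≤ cond S x := min_le_left _ _
  have h3 : min (cond S x) (min (cond S x⁻¹) (cond S (x - 1))) ≤ cond S x⁻¹ :=
    (min_le_right _ _).trans (min_le_left _ _)
  have h4 : min (cond S x) (min (cond S x⁻¹) (cond S (x - 1))) ≤ cond S (x - 1) :=
    (min_le_right _ _).trans (min_le_right _ _)
  linarith

end

variable (K : Type) [Field K] [NumberField K]

theorem final (hm : ∀ e c : ℝ, 0 < e → e ≤ 2 / 3 → 0 ≤ c → MainBound K e c) (ha : AdmSmall K)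
    (S : Set (HeightOneSpectrum (𝓞 K))) (hS : S.Finite) (ε : ℝ) (hε : 0 < ε) :
    ∃ C : ℝ, ∀ X A H : ℝ, 1 ≤ X → 1 ≤ A → 1 ≤ H → (Points S X A H).Finite ∧
      ((Points S X A H).ncard : ℝ) ≤ C * H * X ^ ε * (A * X) ^ ((1 : ℝ) / 2) := by
  classical
  obtain ⟨c, hc0, hadm⟩ := ha hS.toFinset
  obtain ⟨m, hm1, hmε⟩ : ∃ m : ℕ, 1 ≤ m ∧ 1 / (3 * (m : ℝ)) ≤ ε := by
    refine ⟨⌈1 / (3 * ε)⌉₊, ?_, ?_⟩
    · exact Nat.one_le_iff_ne_zero.2 (Nat.ceil_pos.2 (by positivity)).ne'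
    · have h1 : 1 / (3 * ε) ≤ ⌈1 / (3 * ε)⌉₊ := Nat.le_ceil _
      have h2 : (0 : ℝ) < ⌈1 / (3 * ε)⌉₊ := lt_of_lt_of_le (by positivity) h1
      rw [div_le_iff₀ (by positivity)] at h1 ⊢
      nlinarith
  have hm0 : (0 : ℝ) < m := by exact_mod_cast hm1
  have hε2 : 0 < ε / 2 := by linarith
  have hex : ∀ j : ℕ, ∃ C : ℝ, 0 < C ∧ (j ≤ m → ∀ X H : ℝ, 1 ≤ X → 1 ≤ H →
      ∀ F : Finset K, (∀ x ∈ F, Adm ((1 + (j / (3 * m) : ℝ)) / 2) c X x ∧ hgt x ≤ H) →
        (F.card : ℝ) ≤ C * H * X ^ ((1 + (j / (3 * m) : ℝ)) / 2 + ε / 2)) := by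
    intro j
    by_cases hj : j ≤ m
    · have hj' : (j : ℝ) ≤ m := by exact_mod_cast hj
      have h1 : (j / (3 * m) : ℝ) ≤ 1 / 3 := by
        rw [div_le_iff₀ (by positivity)]
        linarith
      have h2 : (0 : ℝ) ≤ j / (3 * m) := by positivity
      obtain ⟨C, hC0, hC⟩ := hm ((1 + (j / (3 * m) : ℝ)) / 2) c (by linarith) (by linarith) hc0
        (ε / 2) hε2
      exact ⟨C, hC0, fun _ => hC⟩
    · exact ⟨1, one_pos, fun h => absurd h hj⟩
  choose D hD0 hD using hex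
  set c1 : ℝ := Height.totalWeight K * Real.log 2 +
    Height.logHeight (fin_mat : Fin 3 × Fin 2 → K) with hc1
  have hc10 : 0 ≤ c1 := add_nonneg (mul_nonneg (Nat.cast_nonneg _) (Real.log_nonneg (by norm_num)))
      (Height.logHeight_nonneg _)
  set DD : ℝ := ∑ j ∈ Finset.range (m + 1), D j with hDD
  have hDD0 : 0 ≤ DD := Finset.sum_nonneg fun j _ => (hD0 j).le
  refine ⟨DD * (1 + c1), ?_⟩
  intro X A H hX hA hH
  have hX0 : 0 < X := by linarith
  have hA0 : 0 < A := by linarith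
  have hlX : 0 ≤ Real.log X := Real.log_nonneg hX
  have hH'1 : 1 ≤ (1 + c1) * H := by nlinarith
  obtain ⟨j, hj, hj1, hj2⟩ := fin_exp hm1 hmε hX hA
  have hjm : j ≤ m := by
    have := Finset.mem_range.1 hj
    omega
  have hDj : D j ≤ DD := Finset.single_le_sum (fun i _ => (hD0 i).le) hj
  have hα0 : (0 : ℝ) ≤ j / (3 * m) := by positivity
  have hbound : ∀ G : Finset K, (G : Set K) ⊆ Points S X A H →
      (G.card : ℝ) ≤ DD * (1 + c1) * H * X ^ ε * (A * X) ^ ((1 : ℝ) / 2) := by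
    intro G hG
    have h1 : (G.card : ℝ) ≤ D j * ((1 + c1) * H) * X ^ ((1 + (j / (3 * m) : ℝ)) / 2 + ε / 2) := by
      rw [← Finset.card_image_of_injective G (neg_injective : Function.Injective fun x : K => -x)]
      refine hD j hjm X ((1 + c1) * H) hX hH'1 _ ?_
      intro t ht
      obtain ⟨x, hx, rfl⟩ := Finset.mem_image.1 ht
      obtain ⟨h0, h1, h2, h3, h4⟩ := hG hx
      obtain ⟨i, hi⟩ := fin_min S h0 h1 hX0 hA0 h2 h3
      refine ⟨hadm (-x) i X _ (fin_Pt h0 h1) hX hα0 ?_ ?_, ?_⟩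
      · have h5 := fin_rr S hS h0 h1 i
        linarith
      · exact fin_rad S hS h0 h1 hX0 ((Real.le_log_iff_exp_le hX0).2 h2)
      · have h5 := fin_hgt h0 h1
        nlinarith
    have h2 : 0 ≤ (1 + c1) * H := by positivity
    calc (G.card : ℝ) ≤ D j * ((1 + c1) * H) * X ^ ((1 + (j / (3 * m) : ℝ)) / 2 + ε / 2) := h1
      _ ≤ DD * ((1 + c1) * H) * (X ^ ε * (A * X) ^ ((1 : ℝ) / 2)) :=
          mul_le_mul (mul_le_mul_of_nonneg_right hDj h2) hj2 (by positivity) (by positivity)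
      _ = _ := by ring
  have hfin : (Points S X A H).Finite := by
    by_contra hinf
    obtain ⟨G, hGV, hGc⟩ := Set.Infinite.exists_subset_card_eq hinf
      (⌊DD * (1 + c1) * H * X ^ ε * (A * X) ^ ((1 : ℝ) / 2)⌋₊ + 1)
    have h1 := hbound G hGV
    have h2 := Nat.lt_floor_add_one (DD * (1 + c1) * H * X ^ ε * (A * X) ^ ((1 : ℝ) / 2))
    rw [hGc] at h1
    push_cast at h1
    linarith
  refine ⟨hfin, ?_⟩
  rw [Set.ncard_eq_toFinset_card _ hfin]
  exact hbound hfin.toFinset (by rw [Set.Finite.coe_toFinset])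

end Pool.Agent.TH876.SK
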